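import Mathlib

/-!
# Preperiod lengths of beta expansions of Salem numbers of degree 6 are unbounded

For an integer `s ≥ 2` put `b = 2 * s` and let `β` be the root in `(b, b+1)` of
`X^6 - (b+2) X^5 + (2b+2) X^4 - (2b+3) X^3 + (2b+2) X^2 - (b+2) X + 1`.
This is a Salem number of degree 6 (the polynomial is `X^6 + X^3 + 1` modulo 2, which is irreducible),
and its greedy expansion of `1` has preperiod
`b, 0, (1, 1, 2, 3), (3, 3, 4, 5), ..., (b-3, b-3, b-2, b-1), b, 0` of length `2 * b`, followed by the period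
`1, 0, b-1, b-3, b-4, ..., 2, 0, b-1, b-2, b-2, b-1, 0, 2, 3, ..., b-3, b-1, 0, 1` of length `2 * b + 4`.
-/

set_option autoImplicit false

open Polynomial

namespace Pool.Agent.Results.MP_e4c55d_nt.Unbounded

/-- `β` is a Salem number: a real algebraic integer `β > 1` all of whose other Galois conjugates
`z` satisfy `|z| ≤ 1`, with at least one conjugate on `|z| = 1`. -/
def IsSalem (β : ℝ) : Prop :=
  1 < β ∧ IsIntegral ℤ β ∧
    (∀ z ∈ (minpoly ℚ β).aroots ℂ, z ≠ (β : ℂ) → ‖z‖ ≤ 1) ∧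
    ∃ z ∈ (minpoly ℚ β).aroots ℂ, ‖z‖ = 1

/-- The beta transformation `T_β(x) = β x - ⌊β x⌋`. -/
noncomputable def betaT (β x : ℝ) : ℝ := β * x - ⌊β * x⌋

/-- The `n`-th digit `t_n = ⌊β T_β^{n-1}(1)⌋` (`n ≥ 1`) of the greedy beta expansion of `1`. -/
noncomputable def digit (β : ℝ) (n : ℕ) : ℤ := ⌊β * (betaT β)^[n - 1] 1⌋

/-- `t_{n+p} = t_n` for all `n > m`. -/
def PeriodicAfter (β : ℝ) (m p : ℕ) : Prop := ∀ n, m < n → digit β (n + p) = digit β n

/-- The beta expansion of `1` is eventually periodic. -/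
def EventuallyPeriodic (β : ℝ) : Prop := ∃ m p : ℕ, 1 ≤ p ∧ PeriodicAfter β m p

/-- The preperiod length `m(β)`: the least `m ≥ 0` such that, for some `p ≥ 1`,
`t_{n+p} = t_n` for all `n > m`. (Only meaningful when the expansion is eventually periodic.) -/
noncomputable def preperiod (β : ℝ) : ℕ := sInf {m : ℕ | ∃ p : ℕ, 1 ≤ p ∧ PeriodicAfter β m p}


/-- digits -/
def tdig (s n : ℕ) : ℤ :=
  if n = 1 then 2 * s
  else if n = 2 then 0
  else if n ≤ 4 * s - 2 then
    (2 * (((n - 3) / 4 : ℕ) : ℤ) +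
      (if (n - 3) % 4 = 0 then 1 else if (n - 3) % 4 = 1 then 1 else if (n - 3) % 4 = 2 then 2 else 3))
  else if n = 4 * s - 1 then 2 * s
  else if n = 4 * s then 0
  else if n = 4 * s + 1 then 1
  else if n = 4 * s + 2 then 0
  else if n = 4 * s + 3 then 2 * s - 1
  else if n ≤ 6 * s - 1 then 6 * s + 1 - n
  else if n = 6 * s then 0
  else if n = 6 * s + 1 then 2 * s - 1
  else if n = 6 * s + 2 then 2 * s - 2
  else if n = 6 * s + 3 then 2 * s - 2
  else if n = 6 * s + 4 then 2 * s - 1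
  else if n = 6 * s + 5 then 0
  else if n ≤ 8 * s + 1 then n - 6 * s - 4
  else if n = 8 * s + 2 then 2 * s - 1
  else if n = 8 * s + 3 then 0
  else 1

noncomputable def V (s : ℕ) (x : ℝ) : ℕ → ℝ
  | 0 => 1
  | n + 1 => x * V s x n - (tdig s (n + 1) : ℝ)

theorem V_succ (s : ℕ) (x : ℝ) (n : ℕ) : V s x (n+1) = x * V s x n - (tdig s (n + 1) : ℝ) := rfl

theorem key_b {b x : ℝ} (hx : 1 < x)
    (hP : x^6 - (b+2)*x^5 + (2*b+2)*x^4 - (2*b+3)*x^3 + (2*b+2)*x^2 - (b+2)*x + 1 = 0) :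
    b = x - (x^3-x^2+2*x-1)/(x*(x-1)^2*(x^2+1)) := by
  have h1 : x - 1 ≠ 0 := by linarith
  have h2 : x ≠ 0 := by linarith
  have h3 : x^2 + 1 ≠ 0 := by positivity
  field_simp
  linear_combination -hP

section
variable {s : ℕ} {x : ℝ}

theorem V_two (s : ℕ) (x : ℝ) : V s x 2 = x^2 - (2*s)*x := by
  simp [V, tdig]; ring

theorem V_A (hs : 2 ≤ s) (hx : 1 < x)
    (hb : (2 * s : ℝ) = x - (x^3-x^2+2*x-1)/(x*(x-1)^2*(x^2+1))) :
    ∀ q : ℕ, q ≤ s - 1 → V s x (4*q+2) = x^2 - (2*s)*x + 2*q/(x-1) := by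
  intro q
  induction q with
  | zero => intro _; simpa using V_two s x
  | succ q ih =>
    intro hq
    have ih' := ih (by omega)
    have e1 : tdig s (4*q+2+1) = 2*q+1 := by
      unfold tdig
      rw [if_neg (by omega), if_neg (by omega), if_pos (by omega), if_pos (by omega)]
      have : (4*q+2+1-3)/4 = q := by omega
      rw [this]
    have e2 : tdig s (4*q+2+1+1) = 2*q+1 := by
      unfold tdig
      rw [if_neg (by omega), if_neg (by omega), if_pos (by omega), if_neg (by omega), if_pos (by omega)]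
      have : (4*q+2+1+1-3)/4 = q := by omega
      rw [this]
    have e3 : tdig s (4*q+2+1+1+1) = 2*q+2 := by
      unfold tdig
      rw [if_neg (by omega), if_neg (by omega), if_pos (by omega), if_neg (by omega), if_neg (by omega),
        if_pos (by omega)]
      have : (4*q+2+1+1+1-3)/4 = q := by omega
      rw [this]
    have e4 : tdig s (4*q+2+1+1+1+1) = 2*q+3 := by
      unfold tdig
      rw [if_neg (by omega), if_neg (by omega), if_pos (by omega), if_neg (by omega), if_neg (by omega),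
        if_neg (by omega)]
      have : (4*q+2+1+1+1+1-3)/4 = q := by omega
      rw [this]
    have e : 4*(q+1)+2 = 4*q+2+1+1+1+1 := by ring
    rw [e, V_succ, V_succ, V_succ, V_succ, ih', e1, e2, e3, e4, hb]
    have h1 : x - 1 ≠ 0 := by linarith
    have h2 : x ≠ 0 := by linarith
    have h3 : x^2 + 1 ≠ 0 := by positivity
    push_cast
    field_simp
    ring


theorem V_B (hs : 2 ≤ s) (hx : 1 < x)
    (hb : (2 * s : ℝ) = x - (x^3-x^2+2*x-1)/(x*(x-1)^2*(x^2+1))) :
    V s x (4*s) = x * (x * (x^2 - (2*s)*x + 2*((s:ℝ)-1)/(x-1)) - 2 * s) := by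
  have h := V_A hs hx hb (s-1) le_rfl
  have e : 4 * (s-1) + 2 = 4*s-2 := by omega
  rw [e] at h
  have e0 : 4 * s = (4*s-2)+1+1 := by omega
  have e1 : tdig s (4*s-2+1) = 2*s := by
    unfold tdig
    rw [if_neg (by omega), if_neg (by omega), if_neg (by omega), if_pos (by omega)]
  have e2 : tdig s (4*s-2+1+1) = 0 := by
    unfold tdig
    rw [if_neg (by omega), if_neg (by omega), if_neg (by omega), if_neg (by omega), if_pos (by omega)]
  rw [e0, V_succ, V_succ, h, e1, e2]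
  rw [Nat.cast_sub (by omega)]
  push_cast
  ring

theorem V_C0 (hs : 2 ≤ s) (hx : 1 < x)
    (hb : (2 * s : ℝ) = x - (x^3-x^2+2*x-1)/(x*(x-1)^2*(x^2+1))) :
    V s x (4*s+3) = (2*s-3)/(x-1) - 1/(x-1)^2 := by
  have h := V_B hs hx hb
  have e1 : tdig s (4*s+1) = 1 := by
    unfold tdig
    rw [if_neg (by omega), if_neg (by omega), if_neg (by omega), if_neg (by omega), if_neg (by omega),
      if_pos (by omega)]
  have e2 : tdig s (4*s+1+1) = 0 := by
    unfold tdig
    rw [if_neg (by omega), if_neg (by omega), if_neg (by omega), if_neg (by omega), if_neg (by omega),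
      if_neg (by omega), if_pos (by omega)]
  have e3 : tdig s (4*s+1+1+1) = 2*s-1 := by
    unfold tdig
    rw [if_neg (by omega), if_neg (by omega), if_neg (by omega), if_neg (by omega), if_neg (by omega),
      if_neg (by omega), if_neg (by omega), if_pos (by omega)]
  have hb' : (s : ℝ) = (x - (x^3-x^2+2*x-1)/(x*(x-1)^2*(x^2+1)))/2 := by linarith
  rw [show 4*s+3 = 4*s+1+1+1 by ring, V_succ, V_succ, V_succ, h, e1, e2, e3]
  push_cast
  rw [hb']
  have h1 : x - 1 ≠ 0 := by linarith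
  have h2 : x ≠ 0 := by linarith
  have h3 : x^2 + 1 ≠ 0 := by positivity
  field_simp
  ring

theorem V_C (hs : 2 ≤ s) (hx : 1 < x)
    (hb : (2 * s : ℝ) = x - (x^3-x^2+2*x-1)/(x*(x-1)^2*(x^2+1))) :
    ∀ j : ℕ, j ≤ 2*s-4 → V s x (4*s+3+j) = (2*s-3-j)/(x-1) - 1/(x-1)^2 := by
  intro j
  induction j with
  | zero => intro _; simpa using V_C0 hs hx hb
  | succ j ih =>
    intro hj
    have ih' := ih (by omega)
    have e1 : tdig s (4*s+3+j+1) = 2*s-3-j := by
      unfold tdig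
      rw [if_neg (by omega), if_neg (by omega), if_neg (by omega), if_neg (by omega), if_neg (by omega),
        if_neg (by omega), if_neg (by omega), if_neg (by omega), if_pos (by omega)]
      push_cast
      ring
    rw [show 4*s+3+(j+1) = 4*s+3+j+1 by ring, V_succ, ih', e1]
    have h1 : x - 1 ≠ 0 := by linarith
    push_cast
    field_simp
    ring

theorem V_D (hs : 2 ≤ s) (hx : 1 < x)
    (hb : (2 * s : ℝ) = x - (x^3-x^2+2*x-1)/(x*(x-1)^2*(x^2+1))) :
    V s x (6*s+5) = 2/(x-1) + 1/(x-1)^2 := by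
  have h := V_C hs hx hb (2*s-4) le_rfl
  have e : 4*s+3+(2*s-4) = 6*s-1 := by omega
  rw [e] at h
  rw [Nat.cast_sub (by omega)] at h
  have e1 : tdig s (6*s-1+1) = 0 := by
    unfold tdig
    rw [if_neg (by omega), if_neg (by omega), if_neg (by omega), if_neg (by omega), if_neg (by omega),
      if_neg (by omega), if_neg (by omega), if_neg (by omega), if_neg (by omega), if_pos (by omega)]
  have e2 : tdig s (6*s-1+1+1) = 2*s-1 := by
    unfold tdig
    rw [if_neg (by omega), if_neg (by omega), if_neg (by omega), if_neg (by omega), if_neg (by omega),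
      if_neg (by omega), if_neg (by omega), if_neg (by omega), if_neg (by omega), if_neg (by omega),
      if_pos (by omega)]
  have e3 : tdig s (6*s-1+1+1+1) = 2*s-2 := by
    unfold tdig
    rw [if_neg (by omega), if_neg (by omega), if_neg (by omega), if_neg (by omega), if_neg (by omega),
      if_neg (by omega), if_neg (by omega), if_neg (by omega), if_neg (by omega), if_neg (by omega),
      if_neg (by omega), if_pos (by omega)]
  have e4 : tdig s (6*s-1+1+1+1+1) = 2*s-2 := by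
    unfold tdig
    rw [if_neg (by omega), if_neg (by omega), if_neg (by omega), if_neg (by omega), if_neg (by omega),
      if_neg (by omega), if_neg (by omega), if_neg (by omega), if_neg (by omega), if_neg (by omega),
      if_neg (by omega), if_neg (by omega), if_pos (by omega)]
  have e5 : tdig s (6*s-1+1+1+1+1+1) = 2*s-1 := by
    unfold tdig
    rw [if_neg (by omega), if_neg (by omega), if_neg (by omega), if_neg (by omega), if_neg (by omega),
      if_neg (by omega), if_neg (by omega), if_neg (by omega), if_neg (by omega), if_neg (by omega),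
      if_neg (by omega), if_neg (by omega), if_neg (by omega), if_pos (by omega)]
  have e6 : tdig s (6*s-1+1+1+1+1+1+1) = 0 := by
    unfold tdig
    rw [if_neg (by omega), if_neg (by omega), if_neg (by omega), if_neg (by omega), if_neg (by omega),
      if_neg (by omega), if_neg (by omega), if_neg (by omega), if_neg (by omega), if_neg (by omega),
      if_neg (by omega), if_neg (by omega), if_neg (by omega), if_neg (by omega), if_pos (by omega)]
  have hb' : (s : ℝ) = (x - (x^3-x^2+2*x-1)/(x*(x-1)^2*(x^2+1)))/2 := by linarith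
  rw [show 6*s+5 = 6*s-1+1+1+1+1+1+1 by omega, V_succ, V_succ, V_succ, V_succ, V_succ, V_succ, h,
    e1, e2, e3, e4, e5, e6]
  push_cast
  rw [hb']
  have h1 : x - 1 ≠ 0 := by linarith
  have h2 : x ≠ 0 := by linarith
  have h3 : x^2 + 1 ≠ 0 := by positivity
  field_simp
  ring

theorem V_E (hs : 2 ≤ s) (hx : 1 < x)
    (hb : (2 * s : ℝ) = x - (x^3-x^2+2*x-1)/(x*(x-1)^2*(x^2+1))) :
    ∀ j : ℕ, j ≤ 2*s-4 → V s x (6*s+5+j) = (2+j)/(x-1) + 1/(x-1)^2 := by
  intro j
  induction j with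
  | zero => intro _; simpa using V_D hs hx hb
  | succ j ih =>
    intro hj
    have ih' := ih (by omega)
    have e1 : tdig s (6*s+5+j+1) = 2+j := by
      unfold tdig
      rw [if_neg (by omega), if_neg (by omega), if_neg (by omega), if_neg (by omega), if_neg (by omega),
        if_neg (by omega), if_neg (by omega), if_neg (by omega), if_neg (by omega), if_neg (by omega),
        if_neg (by omega), if_neg (by omega), if_neg (by omega), if_neg (by omega), if_neg (by omega),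
        if_pos (by omega)]
      push_cast
      ring
    rw [show 6*s+5+(j+1) = 6*s+5+j+1 by ring, V_succ, ih', e1]
    have h1 : x - 1 ≠ 0 := by linarith
    push_cast
    field_simp
    ring

theorem V_F (hs : 2 ≤ s) (hx : 1 < x)
    (hb : (2 * s : ℝ) = x - (x^3-x^2+2*x-1)/(x*(x-1)^2*(x^2+1))) :
    V s x (8*s+4) = V s x (4*s) := by
  have h := V_E hs hx hb (2*s-4) le_rfl
  have e : 6*s+5+(2*s-4) = 8*s+1 := by omega
  rw [e] at h
  rw [Nat.cast_sub (by omega)] at h
  have e1 : tdig s (8*s+1+1) = 2*s-1 := by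
    unfold tdig
    rw [if_neg (by omega), if_neg (by omega), if_neg (by omega), if_neg (by omega), if_neg (by omega),
      if_neg (by omega), if_neg (by omega), if_neg (by omega), if_neg (by omega), if_neg (by omega),
      if_neg (by omega), if_neg (by omega), if_neg (by omega), if_neg (by omega), if_neg (by omega),
      if_neg (by omega), if_pos (by omega)]
  have e2 : tdig s (8*s+1+1+1) = 0 := by
    unfold tdig
    rw [if_neg (by omega), if_neg (by omega), if_neg (by omega), if_neg (by omega), if_neg (by omega),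
      if_neg (by omega), if_neg (by omega), if_neg (by omega), if_neg (by omega), if_neg (by omega),
      if_neg (by omega), if_neg (by omega), if_neg (by omega), if_neg (by omega), if_neg (by omega),
      if_neg (by omega), if_neg (by omega), if_pos (by omega)]
  have e3 : tdig s (8*s+1+1+1+1) = 1 := by
    unfold tdig
    rw [if_neg (by omega), if_neg (by omega), if_neg (by omega), if_neg (by omega), if_neg (by omega),
      if_neg (by omega), if_neg (by omega), if_neg (by omega), if_neg (by omega), if_neg (by omega),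
      if_neg (by omega), if_neg (by omega), if_neg (by omega), if_neg (by omega), if_neg (by omega),
      if_neg (by omega), if_neg (by omega), if_neg (by omega)]
  have hb' : (s : ℝ) = (x - (x^3-x^2+2*x-1)/(x*(x-1)^2*(x^2+1)))/2 := by linarith
  rw [show 8*s+4 = 8*s+1+1+1+1 by omega, V_succ, V_succ, V_succ, h, V_B hs hx hb,
    e1, e2, e3]
  push_cast
  rw [hb']
  have h1 : x - 1 ≠ 0 := by linarith
  have h2 : x ≠ 0 := by linarith
  have h3 : x^2 + 1 ≠ 0 := by positivity
  field_simp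
  ring

end


theorem coeffs_eq (e5 e4 e3 e2 e1 e0 : ZMod 2)
    (h : X^6 + C e5 * X^5 + C e4 * X^4 + C e3 * X^3 + C e2 * X^2 + C e1 * X + C e0 =
      (X^6 + X^3 + 1 : (ZMod 2)[X])) :
    e5 = 0 ∧ e4 = 0 ∧ e3 = 1 ∧ e2 = 0 ∧ e1 = 0 ∧ e0 = 1 := by
  have c5 := congrArg (fun p => coeff p 5) h
  have c4 := congrArg (fun p => coeff p 4) h
  have c3 := congrArg (fun p => coeff p 3) h
  have c2 := congrArg (fun p => coeff p 2) h
  have c1 := congrArg (fun p => coeff p 1) h
  have c0 := congrArg (fun p => coeff p 0) h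
  simp [coeff_X, coeff_one, coeff_C, coeff_X_pow] at c5 c4 c3 c2 c1 c0
  exact ⟨c5, c4, c3, c2, c1, c0⟩

theorem irr_two : Irreducible (X^6 + X^3 + 1 : (ZMod 2)[X]) := by
  have hnd : (X^6 + X^3 + 1 : (ZMod 2)[X]).natDegree = 6 := by compute_degree!
  have hmon : (X^6 + X^3 + 1 : (ZMod 2)[X]).Monic := by monicity!
  rw [hmon.irreducible_iff_natDegree']
  constructor
  · intro h
    rw [h] at hnd
    simp at hnd
  intro f q hf hq hfq hmem
  rw [hnd, Finset.mem_Ioc] at hmem
  have hdeg : f.natDegree + q.natDegree = 6 := by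
    rw [← hf.natDegree_mul hq, hfq, hnd]
  obtain ⟨h1, h2⟩ := hmem
  have hfs := hf.as_sum
  have hqs := hq.as_sum
  interval_cases hd : q.natDegree
  · have hfd : f.natDegree = 5 := by omega
    rw [hfd] at hfs
    simp only [Finset.sum_range_succ, Finset.sum_range_zero] at hfs hqs
    generalize f.coeff 0 = a0 at *
    generalize f.coeff 1 = a1 at *
    generalize f.coeff 2 = a2 at *
    generalize f.coeff 3 = a3 at *
    generalize f.coeff 4 = a4 at *
    generalize q.coeff 0 = b0 at *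
    have e : f * q = X^6 + C (a4 + b0) * X^5 + C (a3 + a4*b0) * X^4 + C (a2 + a3*b0) * X^3
        + C (a1+a2*b0) * X^2 + C (a0 + a1*b0) * X + C (a0*b0) := by
      rw [hfs, hqs]; simp only [C_add, C_mul]; ring
    rw [e] at hfq
    have := coeffs_eq _ _ _ _ _ _ hfq
    clear hfs hqs e hfq
    revert a0 a1 a2 a3 a4 b0
    decide
  · have hfd : f.natDegree = 4 := by omega
    rw [hfd] at hfs
    simp only [Finset.sum_range_succ, Finset.sum_range_zero] at hfs hqs
    generalize f.coeff 0 = a0 at *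
    generalize f.coeff 1 = a1 at *
    generalize f.coeff 2 = a2 at *
    generalize f.coeff 3 = a3 at *
    generalize q.coeff 0 = b0 at *
    generalize q.coeff 1 = b1 at *
    have e : f * q = X^6 + C (a3 + b1) * X^5 + C (a2 + a3*b1 + b0) * X^4 + C (a1 + a2*b1+a3*b0) * X^3
        + C (a0+a1*b1+a2*b0) * X^2 + C (a0*b1 + a1*b0) * X + C (a0*b0) := by
      rw [hfs, hqs]; simp only [C_add, C_mul]; ring
    rw [e] at hfq
    have := coeffs_eq _ _ _ _ _ _ hfq
    clear hfs hqs e hfq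
    revert a0 a1 a2 a3 b0 b1
    decide
  · have hfd : f.natDegree = 3 := by omega
    rw [hfd] at hfs
    simp only [Finset.sum_range_succ, Finset.sum_range_zero] at hfs hqs
    generalize f.coeff 0 = a0 at *
    generalize f.coeff 1 = a1 at *
    generalize f.coeff 2 = a2 at *
    generalize q.coeff 0 = b0 at *
    generalize q.coeff 1 = b1 at *
    generalize q.coeff 2 = b2 at *
    have e : f * q = X^6 + C (a2 + b2) * X^5 + C (a1 + a2*b2 + b1) * X^4 + C (a0 + a1*b2+a2*b1+b0) * X^3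
        + C (a0*b2+a1*b1+a2*b0) * X^2 + C (a0*b1 + a1*b0) * X + C (a0*b0) := by
      rw [hfs, hqs]; simp only [C_add, C_mul]; ring
    rw [e] at hfq
    have := coeffs_eq _ _ _ _ _ _ hfq
    clear hfs hqs e hfq
    revert a0 a1 a2 b0 b1 b2
    decide

/-- The defining polynomial -/
noncomputable def P (s : ℕ) : ℤ[X] :=
  X^6 - C (2*s+2 : ℤ) * X^5 + C (4*s+2 : ℤ) * X^4 - C (4*s+3 : ℤ) * X^3 + C (4*s+2 : ℤ) * X^2
    - C (2*s+2 : ℤ) * X + 1

theorem P_natDegree (s : ℕ) : (P s).natDegree = 6 := by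
  unfold P
  compute_degree!

theorem P_monic (s : ℕ) : (P s).Monic := by
  unfold P
  monicity!

theorem P_map (s : ℕ) : (P s).map (Int.castRingHom (ZMod 2)) = X^6 + X^3 + 1 := by
  have h2 : (2 : ZMod 2) = 0 := by decide
  have h4 : (4 : ZMod 2) = 0 := by decide
  have h3 : (3 : ZMod 2) = 1 := by decide
  have e1 : (Int.castRingHom (ZMod 2)) (2*s+2 : ℤ) = 0 := by
    simp [h2]
  have e2 : (Int.castRingHom (ZMod 2)) (4*s+2 : ℤ) = 0 := by
    simp [h2, h4]
  have e3 : (Int.castRingHom (ZMod 2)) (4*s+3 : ℤ) = 1 := by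
    simp [h3, h4]
  unfold P
  simp only [Polynomial.map_add, Polynomial.map_sub, Polynomial.map_mul, Polynomial.map_pow, map_X,
    Polynomial.map_C, Polynomial.map_one]
  rw [e1, e2, e3]
  have : (-X^3 : (ZMod 2)[X]) = X^3 := CharTwo.neg_eq _
  simp only [C_0, C_1, zero_mul, one_mul, sub_zero, add_zero]
  rw [sub_eq_add_neg, this]

theorem P_irr (s : ℕ) : Irreducible (P s) := by
  apply Monic.irreducible_of_irreducible_map (Int.castRingHom (ZMod 2)) _ (P_monic s)
  rw [P_map]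
  exact irr_two

theorem P_irr_rat (s : ℕ) : Irreducible ((P s).map (algebraMap ℤ ℚ)) :=
  ((P_monic s).irreducible_iff_irreducible_map_fraction_map).1 (P_irr s)



theorem quad_unit {y : ℝ} (hy1 : -2 < y) (hy2 : y < 2) {z : ℂ} (hz : z^2 - y*z + 1 = 0) : ‖z‖ = 1 := by
  have hre : z.re^2 - z.im^2 - y*z.re + 1 = 0 := by
    have := congrArg Complex.re hz
    simp [pow_two] at this
    nlinarith [this]
  have him : 2*z.re*z.im - y*z.im = 0 := by
    have := congrArg Complex.im hz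
    simp [pow_two] at this
    nlinarith [this]
  have him' : z.im = 0 ∨ 2 * z.re = y := by
    rcases eq_or_ne z.im 0 with h | h
    · exact Or.inl h
    · right
      have : z.im * (2*z.re - y) = 0 := by linarith
      rcases mul_eq_zero.1 this with h' | h'
      · exact absurd h' h
      · linarith
  rcases him' with h | h
  · exfalso
    rw [h] at hre
    nlinarith [sq_nonneg (z.re - y/2), sq_nonneg (z.re)]
  · have : z.re^2 + z.im^2 = 1 := by rw [← h] at hre; nlinarith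
    rw [← Complex.sq_norm_sub_sq_re] at this
    have h2 : ‖z‖^2 = 1 := by linarith
    nlinarith [norm_nonneg z, sq_nonneg (‖z‖ - 1)]

theorem quad_exists {y : ℝ} (hy1 : -2 < y) (hy2 : y < 2) : ∃ z : ℂ, z^2 - y*z + 1 = 0 := by
  obtain ⟨r, hr⟩ : ∃ r : ℝ, r^2 = 1 - y^2/4 := ⟨Real.sqrt (1 - y^2/4), Real.sq_sqrt (by nlinarith)⟩
  refine ⟨⟨y/2, r⟩, ?_⟩
  apply Complex.ext
  · simp [pow_two]
    nlinarith
  · simp [pow_two]
    ring

/-- the trace cubic has two roots in (-2,2) -/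
theorem cubic_roots (s : ℕ) (hs : 1 ≤ s) : ∃ y1 y2 y3 : ℝ, (0 < y2 ∧ y2 < 2) ∧ (-2 < y3 ∧ y3 < 0) ∧
    y1 + y2 + y3 = 2*s+2 ∧ y1*y2+y1*y3+y2*y3 = 4*s-1 ∧ y1*y2*y3 = -1 := by
  have hs' : (1:ℝ) ≤ s := by exact_mod_cast hs
  set f : ℝ → ℝ := fun y => y^3 - (2*s+2)*y^2 + (4*s-1)*y + 1 with hf
  have hc : Continuous f := by fun_prop
  have f0 : f 0 = 1 := by simp [hf]
  have f2 : f 2 = -1 := by simp [hf]; ring
  have fm2 : f (-2) = -16*s - 13 := by simp [hf]; ring
  obtain ⟨y2, ⟨h21, h22⟩, h2⟩ : (0:ℝ) ∈ f '' Set.Ioo 0 2 := by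
    apply intermediate_value_Ioo' (by norm_num) hc.continuousOn
    rw [f0, f2]; constructor <;> norm_num
  obtain ⟨y3, ⟨h31, h32⟩, h3⟩ : (0:ℝ) ∈ f '' Set.Ioo (-2) 0 := by
    apply intermediate_value_Ioo (by norm_num) hc.continuousOn
    rw [f0, fm2]; constructor <;> linarith
  simp only [hf] at h2 h3
  have hne : y2 - y3 ≠ 0 := by linarith
  have key : y2^2 + y2*y3 + y3^2 - (2*s+2)*(y2+y3) + (4*s-1) = 0 := by
    have : (y2 - y3) * (y2^2 + y2*y3 + y3^2 - (2*s+2)*(y2+y3) + (4*s-1)) = 0 := by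
      linear_combination h2 - h3
    rcases mul_eq_zero.1 this with h | h
    · exact absurd h hne
    · exact h
  refine ⟨2*s+2-y2-y3, y2, y3, ⟨h21, h22⟩, ⟨h31, h32⟩, by ring, by linear_combination -key, ?_⟩
  linear_combination h2 - y2 * key

theorem root_exists (s : ℕ) (hs : 2 ≤ s) : ∃ x : ℝ, 2*s < x ∧ x < 2*s+1 ∧
    x^6 - (2*s+2)*x^5 + (4*s+2)*x^4 - (4*s+3)*x^3 + (4*s+2)*x^2 - (2*s+2)*x + 1 = 0 := by
  have hs' : (2:ℝ) ≤ s := by exact_mod_cast hs
  set f : ℝ → ℝ := fun x => x^6 - (2*s+2)*x^5 + (4*s+2)*x^4 - (4*s+3)*x^3 + (4*s+2)*x^2 - (2*s+2)*x + 1 with hf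
  have hc : Continuous f := by fun_prop
  have f0 : f (2*s) < 0 := by
    have : f (2*s) = -((2*s)^3 - (2*s)^2 + 2*(2*s) - 1) := by simp [hf]; ring
    rw [this]
    have : (2*s:ℝ)^3 ≥ (2*s)^2 := by
      apply pow_le_pow_right₀ (by linarith) (by norm_num)
    nlinarith
  have f1 : 0 < f (2*s+1) := by
    have : f (2*s+1) = (2*s+1)^5 - 2*(2*s+1)^4 + (2*s+1)^3 - (2*s+1)^2 - (2*s+1) + 1 := by simp [hf]; ring
    rw [this]
    set y : ℝ := 2*s+1 with hy
    have hy5 : 5 ≤ y := by linarith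
    have e1 : y^5 ≥ 5*y^4 := by nlinarith [pow_pos (show (0:ℝ) < y by linarith) 4]
    have e2 : y^3 ≥ 5*y^2 := by nlinarith [pow_pos (show (0:ℝ) < y by linarith) 2]
    have e3 : y^4 > 0 := by positivity
    nlinarith
  obtain ⟨x, ⟨h1, h2⟩, h⟩ : (0:ℝ) ∈ f '' Set.Ioo (2*s:ℝ) (2*s+1) := by
    apply intermediate_value_Ioo (by linarith) hc.continuousOn
    exact ⟨f0, f1⟩
  exact ⟨x, h1, h2, h⟩


section orbit
variable {s : ℕ} {x : ℝ}

theorem ite_ind (Q : ℤ → Prop) (c : Prop) [Decidable c] (a b : ℤ) (h1 : c → Q a) (h2 : ¬ c → Q b) :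
    Q (if c then a else b) := by
  split
  · exact h1 ‹_›
  · exact h2 ‹_›

theorem tdig_bd (hs : 2 ≤ s) {n : ℕ} (h2 : 2 ≤ n) :
    0 ≤ tdig s n ∧ (n ≠ 4*s-1 → tdig s n ≤ 2 * s - 1) := by
  unfold tdig
  apply ite_ind (Q := fun t => 0 ≤ t ∧ (n ≠ 4*s-1 → t ≤ 2 * s - 1)) _ _ _ (fun h => by omega)
    (fun n1 => ?_)
  apply ite_ind (Q := fun t => 0 ≤ t ∧ (n ≠ 4*s-1 → t ≤ 2 * s - 1)) _ _ _ (fun h => by omega)
    (fun n2 => ?_)
  apply ite_ind (Q := fun t => 0 ≤ t ∧ (n ≠ 4*s-1 → t ≤ 2 * s - 1)) _ _ _ (fun h => by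
    have h3 : (0:ℤ) ≤ (if (n - 3) % 4 = 0 then (1:ℤ) else if (n - 3) % 4 = 1 then 1
        else if (n - 3) % 4 = 2 then 2 else 3) ∧
      (if (n - 3) % 4 = 0 then (1:ℤ) else if (n - 3) % 4 = 1 then 1
        else if (n - 3) % 4 = 2 then 2 else 3) ≤ 3 := by
      split_ifs <;> norm_num
    generalize (if (n - 3) % 4 = 0 then (1:ℤ) else if (n - 3) % 4 = 1 then 1
      else if (n - 3) % 4 = 2 then 2 else 3) = w at *
    refine ⟨by omega, fun _ => by omega⟩) (fun n3 => ?_)
  iterate 15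
    apply ite_ind (Q := fun t => 0 ≤ t ∧ (n ≠ 4*s-1 → t ≤ 2 * s - 1)) _ _ _ (fun h => by omega)
      (fun _ => ?_)
  omega

theorem tdig_nonneg (hs : 2 ≤ s) {n : ℕ} (hn : 2 ≤ n) : 0 ≤ tdig s n := (tdig_bd hs hn).1

theorem tdig_le (hs : 2 ≤ s) {n : ℕ} (h2 : 2 ≤ n) (h4 : n ≠ 4 * s - 1) : tdig s n ≤ 2 * s - 1 :=
  (tdig_bd hs h2).2 h4

theorem V_back (hx : 0 < x) (n : ℕ) : V s x n = (tdig s (n+1) + V s x (n+1)) / x := by
  rw [V_succ]
  field_simp
  ring

theorem V_back_bound (hs : 2 ≤ s) (hx : (2 * s : ℝ) < x) {n : ℕ} (h1 : 1 ≤ n)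
    (h4 : n + 1 ≠ 4 * s - 1) (h : 0 ≤ V s x (n+1) ∧ V s x (n+1) < 1) :
    0 ≤ V s x n ∧ V s x n < 1 := by
  have hs' : (2:ℝ) ≤ s := by exact_mod_cast hs
  have hx0 : 0 < x := by linarith
  have t1 : (0:ℝ) ≤ tdig s (n+1) := by exact_mod_cast tdig_nonneg hs (by omega)
  have t2 : (tdig s (n+1) : ℝ) ≤ 2 * s - 1 := by exact_mod_cast tdig_le hs (by omega) h4
  rw [V_back hx0 n]
  constructor
  · apply div_nonneg _ hx0.le
    linarith [h.1]
  · rw [div_lt_one hx0]
    linarith [h.2]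

theorem V_back_nonneg (hs : 2 ≤ s) (hx : (2 * s : ℝ) < x) {n : ℕ} (hn : 1 ≤ n)
    (h : 0 ≤ V s x (n+1)) : 0 ≤ V s x n := by
  have hs' : (2:ℝ) ≤ s := by exact_mod_cast hs
  have hx0 : 0 < x := by linarith
  have t1 : (0:ℝ) ≤ tdig s (n+1) := by exact_mod_cast tdig_nonneg hs (by omega)
  rw [V_back hx0 n]
  apply div_nonneg _ hx0.le
  linarith

theorem V_bound_C (hs : 2 ≤ s) (hx : (2 * s : ℝ) < x)
    (hb : (2 * s : ℝ) = x - (x^3-x^2+2*x-1)/(x*(x-1)^2*(x^2+1))) :
    0 ≤ V s x (4*s+3) ∧ V s x (4*s+3) < 1 := by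
  have hs' : (2:ℝ) ≤ s := by exact_mod_cast hs
  have hx1 : 3 < x - 1 := by linarith
  rw [V_C0 hs (by linarith) hb]
  have e : (2*s-3:ℝ)/(x-1) - 1/(x-1)^2 = ((2*s-3)*(x-1) - 1)/(x-1)^2 := by
    have : x - 1 ≠ 0 := by linarith
    field_simp
  rw [e]
  have hp : 0 < (x-1)^2 := by positivity
  constructor
  · apply div_nonneg _ hp.le
    nlinarith
  · rw [div_lt_one hp]
    nlinarith

theorem V_bound_cycle (hs : 2 ≤ s) (hx : (2 * s : ℝ) < x)
    (hb : (2 * s : ℝ) = x - (x^3-x^2+2*x-1)/(x*(x-1)^2*(x^2+1))) :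
    0 ≤ V s x (4*s) ∧ V s x (4*s) < 1 := by
  have h3 := V_bound_C hs hx hb
  have h2 := V_back_bound (n := 4*s+2) hs hx (by omega) (by omega) h3
  have h1 := V_back_bound (n := 4*s+1) hs hx (by omega) (by omega) h2
  exact V_back_bound (n := 4*s) hs hx (by omega) (by omega) h1

theorem V_bound_upper (hs : 2 ≤ s) (hx : (2 * s : ℝ) < x)
    (hb : (2 * s : ℝ) = x - (x^3-x^2+2*x-1)/(x*(x-1)^2*(x^2+1))) :
    ∀ i : ℕ, i ≤ 4*s+5 → 0 ≤ V s x (8*s+4-i) ∧ V s x (8*s+4-i) < 1 := by
  have hs' : (2:ℝ) ≤ s := by exact_mod_cast hs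
  intro i
  induction i with
  | zero =>
    intro _
    rw [Nat.sub_zero, V_F hs (by linarith) hb]
    exact V_bound_cycle hs hx hb
  | succ i ih =>
    intro hi
    have ih' := ih (by omega)
    have e : 8*s+4-i = (8*s+4-(i+1)) + 1 := by omega
    rw [e] at ih'
    exact V_back_bound hs hx (by omega) (by omega) ih'

theorem V_bound_special (hs : 2 ≤ s) (hx : (2 * s : ℝ) < x)
    (hb : (2 * s : ℝ) = x - (x^3-x^2+2*x-1)/(x*(x-1)^2*(x^2+1))) :
    0 ≤ V s x (4*s-2) ∧ V s x (4*s-2) < 1 := by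
  have hs' : (2:ℝ) ≤ s := by exact_mod_cast hs
  constructor
  · have h := (V_bound_upper hs hx hb (4*s+5) le_rfl).1
    have e : 8*s+4-(4*s+5) = (4*s-2) + 1 := by omega
    rw [e] at h
    exact V_back_nonneg hs hx (by omega) h
  · have h := V_A hs (by linarith) hb (s-1) le_rfl
    have e : 4 * (s-1) + 2 = 4*s-2 := by omega
    rw [e, Nat.cast_sub (by omega)] at h
    have hb' : (s : ℝ) = (x - (x^3-x^2+2*x-1)/(x*(x-1)^2*(x^2+1)))/2 := by linarith
    have h1 : x - 1 ≠ 0 := by linarith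
    have h2 : x ≠ 0 := by linarith
    have h3 : x^2 + 1 ≠ 0 := by positivity
    have h5 : V s x (4*s-2) = 1 - (2*x-1)/(x*(x-1)^3*(x^2+1)) := by
      rw [h, hb']
      push_cast
      field_simp
      ring
    rw [h5]
    have hx1 : 0 < x - 1 := by linarith
    have hx0 : 0 < x := by linarith
    have : 0 < (2*x-1)/(x*(x-1)^3*(x^2+1)) := by
      apply div_pos
      · linarith
      · positivity
    linarith

theorem V_bound_lower (hs : 2 ≤ s) (hx : (2 * s : ℝ) < x)
    (hb : (2 * s : ℝ) = x - (x^3-x^2+2*x-1)/(x*(x-1)^2*(x^2+1))) :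
    ∀ i : ℕ, i ≤ 4*s-3 → 0 ≤ V s x (4*s-2-i) ∧ V s x (4*s-2-i) < 1 := by
  intro i
  induction i with
  | zero => intro _; exact V_bound_special hs hx hb
  | succ i ih =>
    intro hi
    have ih' := ih (by omega)
    have e : 4*s-2-i = (4*s-2-(i+1)) + 1 := by omega
    rw [e] at ih'
    exact V_back_bound hs hx (by omega) (by omega) ih'

theorem V_bound (hs : 2 ≤ s) (hx : (2 * s : ℝ) < x)
    (hb : (2 * s : ℝ) = x - (x^3-x^2+2*x-1)/(x*(x-1)^2*(x^2+1)))
    {n : ℕ} (h1 : 1 ≤ n) (hn : n ≤ 8*s+4) : 0 ≤ V s x n ∧ V s x n < 1 := by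
  rcases le_or_gt n (4*s-2) with h | h
  · have := V_bound_lower hs hx hb (4*s-2-n) (by omega)
    rwa [show 4*s-2-(4*s-2-n) = n by omega] at this
  · have := V_bound_upper hs hx hb (8*s+4-n) (by omega)
    rwa [show 8*s+4-(8*s+4-n) = n by omega] at this

theorem orbit_eq (hs : 2 ≤ s) (hx : (2 * s : ℝ) < x)
    (hb : (2 * s : ℝ) = x - (x^3-x^2+2*x-1)/(x*(x-1)^2*(x^2+1))) :
    ∀ n : ℕ, n ≤ 8*s+4 → (betaT x)^[n] 1 = V s x n := by
  intro n
  induction n with
  | zero => intro _; rfl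
  | succ n ih =>
    intro hn
    rw [Function.iterate_succ_apply', ih (by omega)]
    have hb1 := V_bound hs hx hb (n := n+1) (by omega) hn
    have hfl : ⌊x * V s x n⌋ = tdig s (n+1) := by
      rw [Int.floor_eq_iff]
      rw [V_succ] at hb1
      constructor <;> linarith [hb1.1, hb1.2]
    unfold betaT
    rw [hfl, V_succ]

theorem digit_eq (hs : 2 ≤ s) (hx : (2 * s : ℝ) < x)
    (hb : (2 * s : ℝ) = x - (x^3-x^2+2*x-1)/(x*(x-1)^2*(x^2+1)))
    {n : ℕ} (h1 : 1 ≤ n) (hn : n ≤ 8*s+4) : digit x n = tdig s n := by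
  obtain ⟨n, rfl⟩ : ∃ k, n = k + 1 := ⟨n - 1, by omega⟩
  unfold digit
  rw [Nat.add_sub_cancel, orbit_eq hs hx hb n (by omega), Int.floor_eq_iff]
  have hb1 := V_bound hs hx hb (n := n+1) (by omega) hn
  rw [V_succ] at hb1
  constructor <;> linarith [hb1.1, hb1.2]

theorem orbit_periodic (hs : 2 ≤ s) (hx : (2 * s : ℝ) < x)
    (hb : (2 * s : ℝ) = x - (x^3-x^2+2*x-1)/(x*(x-1)^2*(x^2+1))) (i : ℕ) :
    (betaT x)^[4*s + i + (4*s+4)] 1 = (betaT x)^[4*s + i] 1 := by
  have hs' : (2:ℝ) ≤ s := by exact_mod_cast hs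
  have h0 : (betaT x)^[8*s+4] 1 = (betaT x)^[4*s] 1 := by
    rw [orbit_eq hs hx hb _ le_rfl, orbit_eq hs hx hb _ (by omega)]
    exact V_F hs (by linarith) hb
  rw [show 4*s+i+(4*s+4) = i + (8*s+4) by ring, Function.iterate_add_apply, h0,
    ← Function.iterate_add_apply, add_comm i]

theorem digit_periodic (hs : 2 ≤ s) (hx : (2 * s : ℝ) < x)
    (hb : (2 * s : ℝ) = x - (x^3-x^2+2*x-1)/(x*(x-1)^2*(x^2+1))) :
    PeriodicAfter x (4*s) (4*s+4) := by
  intro n hn
  obtain ⟨i, rfl⟩ : ∃ i, n = 4*s + i + 1 := ⟨n - 4*s - 1, by omega⟩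
  unfold digit
  rw [show 4*s+i+1+(4*s+4)-1 = 4*s+i+(4*s+4) by omega, show 4*s+i+1-1 = 4*s+i by omega,
    orbit_periodic hs hx hb i]

theorem not_periodicAfter (hs : 2 ≤ s) (hx : (2 * s : ℝ) < x)
    (hb : (2 * s : ℝ) = x - (x^3-x^2+2*x-1)/(x*(x-1)^2*(x^2+1)))
    {m p : ℕ} (hp : 1 ≤ p) (hm : m < 4*s) : ¬ PeriodicAfter x m p := by
  intro h
  -- iterate the period `p`
  have hit : ∀ j n, m < n → digit x (n + j*p) = digit x n := by
    intro j
    induction j with
    | zero => intro n _; simp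
    | succ j ih =>
      intro n hn
      rw [show n + (j+1)*p = (n + j*p) + p by ring, h _ (by omega), ih n hn]
  have h1 := hit (4*s+4) (4*s) hm
  have h2 := hit (4*s+4) (8*s+4) (by omega)
  have h3 : digit x (8*s+4 + (4*s+4)*p) = digit x (4*s + (4*s+4)*p) := by
    have := digit_periodic hs hx hb (4*s + (4*s+4)*p) (by
      have : 0 < (4*s+4)*p := by positivity
      omega)
    rw [← this]
    congr 1
    ring
  have h4 : digit x (8*s+4) = digit x (4*s) := by rw [← h1, ← h2, h3]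
  rw [digit_eq hs hx hb (by omega) le_rfl, digit_eq hs hx hb (by omega) (by omega)] at h4
  have e1 : tdig s (8*s+4) = 1 := by
    unfold tdig
    rw [if_neg (by omega), if_neg (by omega), if_neg (by omega), if_neg (by omega), if_neg (by omega),
      if_neg (by omega), if_neg (by omega), if_neg (by omega), if_neg (by omega), if_neg (by omega),
      if_neg (by omega), if_neg (by omega), if_neg (by omega), if_neg (by omega), if_neg (by omega),
      if_neg (by omega), if_neg (by omega), if_neg (by omega)]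
  have e2 : tdig s (4*s) = 0 := by
    unfold tdig
    rw [if_neg (by omega), if_neg (by omega), if_neg (by omega), if_neg (by omega), if_pos rfl]
  rw [e1, e2] at h4
  norm_num at h4

theorem preperiod_eq (hs : 2 ≤ s) (hx : (2 * s : ℝ) < x)
    (hb : (2 * s : ℝ) = x - (x^3-x^2+2*x-1)/(x*(x-1)^2*(x^2+1))) :
    preperiod x = 4*s := by
  unfold preperiod
  have hmem : 4*s ∈ {m : ℕ | ∃ p : ℕ, 1 ≤ p ∧ PeriodicAfter x m p} :=
    ⟨4*s+4, by omega, digit_periodic hs hx hb⟩
  apply le_antisymm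
  · exact Nat.sInf_le hmem
  · apply le_csInf ⟨_, hmem⟩
    rintro m ⟨p, hp, h⟩
    by_contra hlt
    exact not_periodicAfter hs hx hb hp (by omega) h

end orbit

section salem

theorem minpoly_eq {s : ℕ} {x : ℝ}
    (hP : x^6 - (2*s+2)*x^5 + (4*s+2)*x^4 - (4*s+3)*x^3 + (4*s+2)*x^2 - (2*s+2)*x + 1 = 0) :
    minpoly ℚ x = (P s).map (algebraMap ℤ ℚ) := by
  symm
  apply minpoly.eq_of_irreducible_of_monic (P_irr_rat s)
  · rw [aeval_map_algebraMap]
    simp only [P, map_add, map_sub, map_mul, map_pow, aeval_X, aeval_C, map_one]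
    simpa using hP
  · exact (P_monic s).map _

theorem aroots_iff {s : ℕ} {x : ℝ}
    (hP : x^6 - (2*s+2)*x^5 + (4*s+2)*x^4 - (4*s+3)*x^3 + (4*s+2)*x^2 - (2*s+2)*x + 1 = 0) (z : ℂ) :
    z ∈ (minpoly ℚ x).aroots ℂ ↔
      z^6 - (2*s+2)*z^5 + (4*s+2)*z^4 - (4*s+3)*z^3 + (4*s+2)*z^2 - (2*s+2)*z + 1 = 0 := by
  rw [minpoly_eq hP, mem_aroots, aeval_map_algebraMap]
  have hne : (P s).map (algebraMap ℤ ℚ) ≠ 0 := ((P_monic s).map _).ne_zero
  simp only [ne_eq, hne, not_false_eq_true, true_and]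
  simp only [P, map_add, map_sub, map_mul, map_pow, aeval_X, aeval_C, map_one]
  simp

theorem isSalem {s : ℕ} (hs : 2 ≤ s) {x : ℝ} (hx : (2 * s : ℝ) < x)
    (hP : x^6 - (2*s+2)*x^5 + (4*s+2)*x^4 - (4*s+3)*x^3 + (4*s+2)*x^2 - (2*s+2)*x + 1 = 0) :
    IsSalem x := by
  have hs' : (2:ℝ) ≤ s := by exact_mod_cast hs
  obtain ⟨y1, y2, y3, ⟨h21, h22⟩, ⟨h31, h32⟩, e1, e2, e3⟩ := cubic_roots s (by omega)
  have fac : ∀ z : ℂ, z^6 - (2*s+2)*z^5 + (4*s+2)*z^4 - (4*s+3)*z^3 + (4*s+2)*z^2 - (2*s+2)*z + 1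
      = (z^2 - y1*z + 1) * (z^2 - y2*z + 1) * (z^2 - y3*z+1) := by
    intro z
    have c1 : (y1:ℂ) + y2 + y3 = 2*s+2 := by exact_mod_cast e1
    have c2 : (y1:ℂ)*y2+y1*y3+y2*y3 = 4*s-1 := by
      have := congrArg (fun r : ℝ => (r : ℂ)) e2
      push_cast at this
      exact this
    have c3 : (y1:ℂ)*y2*y3 = -1 := by
      have := congrArg (fun r : ℝ => (r : ℂ)) e3
      push_cast at this
      exact this
    linear_combination (z^5 + 2*z^3 + z) * c1 - (z^4 + z^2) * c2 + z^3 * c3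
  have facR : (x^2 - y1*x + 1) * (x^2 - y2*x + 1) * (x^2 - y3*x+1) = 0 := by
    rw [← hP]
    linear_combination -(x^5 + 2*x^3 + x) * e1 + (x^4 + x^2) * e2 - x^3 * e3
  have hx1 : x^2 - y1*x + 1 = 0 := by
    rcases mul_eq_zero.1 facR with h | h
    · rcases mul_eq_zero.1 h with h | h
      · exact h
      · exfalso; nlinarith [sq_nonneg (x - y2/2), sq_nonneg (x-1)]
    · exfalso; nlinarith [sq_nonneg (x - y3/2), sq_nonneg (x-1)]
  refine ⟨by linarith, ⟨P s, P_monic s, ?_⟩, ?_, ?_⟩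
  · rw [← aeval_def]
    simp only [P, map_add, map_sub, map_mul, map_pow, aeval_X, aeval_C, map_one]
    simpa using hP
  · intro z hz hne
    rw [aroots_iff hP, fac] at hz
    rcases mul_eq_zero.1 hz with h | h
    · rcases mul_eq_zero.1 h with h | h
      · -- other root of the quadratic with real roots `x` and `1/x`
        have hxc : (x:ℂ)^2 - y1*x + 1 = 0 := by
          have := congrArg (fun r : ℝ => (r : ℂ)) hx1
          push_cast at this
          exact this
        have hx0 : (x:ℂ) ≠ 0 := by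
          have : x ≠ 0 := by linarith
          exact_mod_cast this
        have hprod : (z - x) * (z*x - 1) = 0 := by
          linear_combination x * h - z * hxc
        have hz1 : z * x = 1 := by
          rcases mul_eq_zero.1 hprod with h' | h'
          · exact absurd (sub_eq_zero.1 h') hne
          · exact sub_eq_zero.1 h'
        have hn : ‖z‖ * ‖(x:ℂ)‖ = 1 := by rw [← norm_mul, hz1, norm_one]
        have hxn : ‖(x:ℂ)‖ = x := by
          rw [Complex.norm_real, Real.norm_of_nonneg (by linarith)]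
        rw [hxn] at hn
        by_contra hgt
        push Not at hgt
        nlinarith
      · exact (quad_unit (by linarith) h22 h).le
    · exact (quad_unit h31 (by linarith) h).le
  · obtain ⟨z, hz⟩ := quad_exists (y := y2) (by linarith) h22
    refine ⟨z, ?_, quad_unit (by linarith) h22 hz⟩
    rw [aroots_iff hP, fac, hz]
    ring

end salem

/-- **The preperiod length of the greedy beta expansion of `1` is unbounded over the Salem numbers of
degree 6.** For every `N` there is a Salem number `β` of degree 6 with `d_β(1)` eventually periodic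
and `m(β) > N`. -/
theorem result : ∀ N : ℕ, ∃ β : ℝ, IsSalem β ∧ (minpoly ℚ β).natDegree = 6 ∧
    EventuallyPeriodic β ∧ N < preperiod β := by
  intro N
  have hs : 2 ≤ N + 2 := by omega
  obtain ⟨x, hx, -, hP⟩ := root_exists (N+2) hs
  have hs' : (2:ℝ) ≤ ((N+2 : ℕ) : ℝ) := by exact_mod_cast hs
  have hb : (2 * ((N+2 : ℕ) : ℝ)) = x - (x^3-x^2+2*x-1)/(x*(x-1)^2*(x^2+1)) := by
    apply key_b (by linarith)
    linear_combination hP
  refine ⟨x, isSalem hs hx hP, ?_, ⟨_, _, ?_, digit_periodic hs hx hb⟩, ?_⟩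
  · rw [minpoly_eq hP, (P_monic _).natDegree_map, P_natDegree]
  · omega
  · rw [preperiod_eq hs hx hb]
    omega

end Pool.Agent.Results.MP_e4c55d_nt.Unbounded
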